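import Pool.Agent.N881.GW.M7

/-!
# The explicit formula for elliptic curves over number fields, and its converse

Let `E` be an elliptic curve over a number field.  The smoothed explicit formula, with an unknown
locally finite family `m` of orders in the place of the orders of the zeros and poles of the
continuation, is equivalent to the existence of a meromorphic continuation of the `L`-series with
the orders `m`, on every half-plane `Re s > 3/2 - δ` and on `ℂ`.
-/

set_option autoImplicit false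

namespace Pool.Agent.Results.MP_0d9be2_nt.ConverseExplicitFormula

open NumberField IsDedekindDomain

/-- `W v` is, for every finite place `v`, an integral model of `E` with discriminant minimal at
`v`. -/
def MinimalModels {K : Type} [Field K] [NumberField K] (E : WeierstrassCurve K)
    (W : HeightOneSpectrum (𝓞 K) → WeierstrassCurve (𝓞 K)) : Prop :=
  ∀ v : HeightOneSpectrum (𝓞 K),
    (∃ C : WeierstrassCurve.VariableChange K, C • (W v).map (algebraMap (𝓞 K) K) = E) ∧
    ∀ W' : WeierstrassCurve (𝓞 K),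
      (∃ C : WeierstrassCurve.VariableChange K, C • W'.map (algebraMap (𝓞 K) K) = E) →
      ∀ n : ℕ, (W v).Δ ∈ v.asIdeal ^ n → W'.Δ ∈ v.asIdeal ^ n

section

variable {K : Type} [Field K] [NumberField K]

/-- `a_v`, the norm `Nv` minus the number of affine points of the reduction of `W v`. -/
noncomputable def trace (W : HeightOneSpectrum (𝓞 K) → WeierstrassCurve (𝓞 K))
    (v : HeightOneSpectrum (𝓞 K)) : ℤ :=
  (Ideal.absNorm v.asIdeal : ℤ)
    - (Nat.card {xy : (𝓞 K ⧸ v.asIdeal) × (𝓞 K ⧸ v.asIdeal) //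
        ((W v).map (Ideal.Quotient.mk v.asIdeal)).toAffine.Equation xy.1 xy.2} : ℤ)

open Classical in
/-- `Nv` if the reduction at `v` is good and `0` if it is bad. -/
noncomputable def det (W : HeightOneSpectrum (𝓞 K) → WeierstrassCurve (𝓞 K))
    (v : HeightOneSpectrum (𝓞 K)) : ℤ :=
  if (W v).Δ ∈ v.asIdeal then 0 else (Ideal.absNorm v.asIdeal : ℤ)

/-- The Euler factor at `v`, `(1 - a_v Nv^{-s} + Nv^{1-2s})⁻¹` if the reduction at `v` is good and
`(1 - a_v Nv^{-s})⁻¹` if it is bad. -/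
noncomputable def localFactor (W : HeightOneSpectrum (𝓞 K) → WeierstrassCurve (𝓞 K))
    (v : HeightOneSpectrum (𝓞 K)) (s : ℂ) : ℂ :=
  (1 - (trace W v : ℂ) * (Ideal.absNorm v.asIdeal : ℂ) ^ (-s)
    + (det W v : ℂ) * (Ideal.absNorm v.asIdeal : ℂ) ^ (-2 * s))⁻¹

/-- The `L`-series, as the Euler product over all finite places. -/
noncomputable def LSeries (W : HeightOneSpectrum (𝓞 K) → WeierstrassCurve (𝓞 K)) (s : ℂ) : ℂ :=
  ∏' v : HeightOneSpectrum (𝓞 K), localFactor W v s

open Classical in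
/-- The `L`-series without the Euler factors at the places of the finite set `S`. -/
noncomputable def partialLSeries (W : HeightOneSpectrum (𝓞 K) → WeierstrassCurve (𝓞 K))
    (S : Finset (HeightOneSpectrum (𝓞 K))) (s : ℂ) : ℂ :=
  ∏' v : HeightOneSpectrum (𝓞 K), if v ∈ S then 1 else localFactor W v s

/-- The power sums `t_n(v)` of the reciprocal roots of the Euler factor at `v`:
`t_0 = 2`, `t_1 = a_v`, `t_{n+2} = a_v t_{n+1} - d_v t_n` with `d_v = Nv` or `0`.  At a place of good
reduction `t_n(v)` is `Nv^n + 1` minus the number of points of `E` over the extension of degree `n`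
of the residue field. -/
noncomputable def powerSum (W : HeightOneSpectrum (𝓞 K) → WeierstrassCurve (𝓞 K))
    (v : HeightOneSpectrum (𝓞 K)) : ℕ → ℤ
  | 0 => 2
  | 1 => trace W v
  | (n + 2) => trace W v * powerSum W v (n + 1) - det W v * powerSum W v n

open Classical in
/-- The Gaussian average at `x` of the coefficients of `-L'/L(3/2 + iτ)`:
`√(A/(π log x)) · ∑_{v ∉ S, n ≥ 1} t_n(v) log Nv Nv^{-n(3/2 + iτ)}
exp(-A (log Nv^n - log x)² / log x)`. -/
noncomputable def average (W : HeightOneSpectrum (𝓞 K) → WeierstrassCurve (𝓞 K))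
    (S : Finset (HeightOneSpectrum (𝓞 K))) (A x τ : ℝ) : ℂ :=
  (√(A / (Real.pi * Real.log x)) : ℂ) *
    ∑' p : HeightOneSpectrum (𝓞 K) × ℕ, if p.1 ∈ S then 0 else
      (powerSum W p.1 (p.2 + 1) : ℂ) * (Real.log (Ideal.absNorm p.1.asIdeal) : ℂ) *
        (Ideal.absNorm p.1.asIdeal : ℂ) ^ (-(((p.2 : ℂ) + 1) * (3 / 2 + τ * Complex.I))) *
        (Real.exp (-(A * (((p.2 : ℝ) + 1) * Real.log (Ideal.absNorm p.1.asIdeal) - Real.log x) ^ 2
          / Real.log x)) : ℂ)

/-- The contribution of the points `ρ` with `Re ρ > 3/2 - 2A` and `|Im ρ| ≤ T + 2A`: the finite sum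
of `m(ρ) x^{w + w²/(4A)}`, where `w = ρ - 3/2 - iτ`. -/
noncomputable def contribution (m : ℂ → ℤ) (A T x τ : ℝ) : ℂ :=
  ∑ᶠ ρ ∈ {ρ : ℂ | m ρ ≠ 0 ∧ 3 / 2 - 2 * A < ρ.re ∧ |ρ.im| ≤ T + 2 * A},
    (m ρ : ℂ) * (x : ℂ) ^ ((ρ - 3 / 2 - τ * Complex.I) +
      (ρ - 3 / 2 - τ * Complex.I) ^ 2 / (4 * A))

/-- The explicit formula with parameter `A` and orders `m`: for every `T` there is a `C` such that
`|average + contribution| ≤ C x^{-A}` for `|τ| ≤ T` and `x ≥ 2`. -/
def ExplicitFormula (W : HeightOneSpectrum (𝓞 K) → WeierstrassCurve (𝓞 K))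
    (S : Finset (HeightOneSpectrum (𝓞 K))) (m : ℂ → ℤ) (A : ℝ) : Prop :=
  ∀ T : ℝ, ∃ C : ℝ, ∀ τ x : ℝ, |τ| ≤ T → 2 ≤ x →
    ‖average W S A x τ + contribution m A T x τ‖ ≤ C * x ^ (-A)

end

/-- `m` vanishes for `Re ρ > 3/2` and, for every `b < δ`, has finitely many nonzero values in
every bounded part of the half-plane `Re ρ > 3/2 - b`. -/
def IsDivisor (m : ℂ → ℤ) (δ : ℝ) : Prop :=
  (∀ ρ : ℂ, 3 / 2 < ρ.re → m ρ = 0) ∧
    ∀ b R : ℝ, b < δ → {ρ : ℂ | m ρ ≠ 0 ∧ 3 / 2 - b < ρ.re ∧ |ρ.im| ≤ R}.Finite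

/-- `L` has a meromorphic continuation to `Re s > 3/2 - δ` with order `m s` at every point `s`. -/
def ContinuesTo (L : ℂ → ℂ) (m : ℂ → ℤ) (δ : ℝ) : Prop :=
  ∃ F : ℂ → ℂ, (∀ s : ℂ, 3 / 2 < s.re → F s = L s) ∧
    ∀ s : ℂ, 3 / 2 - δ < s.re →
      MeromorphicAt F s ∧ meromorphicOrderAt F s = (m s : WithTop ℤ)

/-- **The explicit formula and its converse** for an elliptic curve `E` over a number field `K`.
Let `S` be a finite set of finite places of `K` which contains all places above `6`.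

1. Let `δ > 0` and let `m` be a locally finite family of integers in the half-plane
   `Re s > 3/2 - δ`.  The `L`-series (without the factors in `S`) has a meromorphic continuation to
   this half-plane with the orders `m` if and only if the explicit formula with the orders `m` holds
   for all `A < δ / 2`.
2. The `L`-series has a meromorphic continuation to `ℂ` with the orders `m` if and only if the
   explicit formula with the orders `m` holds for all `A > 0`.
3. The full `L`-series of `E` has a meromorphic continuation to `ℂ` if and only if there is a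
   locally finite family `m` of integers such that the explicit formula with the orders `m` holds
   for all `A > 0`. -/
theorem result (K : Type) [Field K] [NumberField K] (E : WeierstrassCurve K) [E.IsElliptic]
    (W : HeightOneSpectrum (𝓞 K) → WeierstrassCurve (𝓞 K)) (_ : MinimalModels E W)
    (S : Finset (HeightOneSpectrum (𝓞 K)))
    (hS : ∀ v : HeightOneSpectrum (𝓞 K), (6 : 𝓞 K) ∈ v.asIdeal → v ∈ S) :
    (∀ δ : ℝ, 0 < δ → ∀ m : ℂ → ℤ, IsDivisor m δ →
      (ContinuesTo (partialLSeries W S) m δ ↔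
        ∀ A : ℝ, 0 < A → 2 * A < δ → ExplicitFormula W S m A)) ∧
    (∀ m : ℂ → ℤ, (∀ δ : ℝ, IsDivisor m δ) →
      ((∃ F : ℂ → ℂ, (∀ s : ℂ, 3 / 2 < s.re → F s = partialLSeries W S s) ∧
        ∀ s : ℂ, MeromorphicAt F s ∧ meromorphicOrderAt F s = (m s : WithTop ℤ)) ↔
        ∀ A : ℝ, 0 < A → ExplicitFormula W S m A)) ∧
    ((∃ F : ℂ → ℂ, (∀ s : ℂ, 3 / 2 < s.re → F s = LSeries W s) ∧ ∀ s : ℂ, MeromorphicAt F s) ↔
      ∃ m : ℂ → ℤ, (∀ δ : ℝ, IsDivisor m δ) ∧
        ∀ A : ℝ, 0 < A → ExplicitFormula W S m A) := by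
  classical
  have haff : ∀ v, (Nat.card {xy : (𝓞 K ⧸ v.asIdeal) × (𝓞 K ⧸ v.asIdeal) //
      ((W v).map (Ideal.Quotient.mk v.asIdeal)).toAffine.Equation xy.1 xy.2}) =
      Pool.Agent.TH339.MP.affc ((W v).map (Ideal.Quotient.mk v.asIdeal)) := by
    intro v
    unfold Pool.Agent.TH339.MP.affc
    refine Nat.card_congr (Equiv.subtypeEquivRight fun q => ?_)
    exact WeierstrassCurve.Affine.equation_iff ..
  have htr : ∀ v, trace W v = Pool.Agent.N881.GW.av' W v := by
    intro v
    unfold trace Pool.Agent.N881.GW.av'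
    rw [haff v]
    rfl
  have hdet : ∀ v, det W v = Pool.Agent.N881.GW.dv W v := fun v => rfl
  have hps : ∀ v n, powerSum W v n =
      Pool.Agent.N881.GW.psum (Pool.Agent.N881.GW.av' W v) (Pool.Agent.N881.GW.dv W v) n := by
    intro v n
    induction n using Nat.twoStepInduction with
    | zero => rfl
    | one => exact htr v
    | more n ih1 ih2 =>
      simp only [powerSum, Pool.Agent.N881.GW.psum]
      rw [ih1, ih2, htr, hdet]
  have hlf : ∀ v s, localFactor W v s = Pool.Agent.TH339.MP.elf W v s := by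
    intro v s
    unfold localFactor Pool.Agent.TH339.MP.elf Pool.Agent.TH339.MP.lfac
    have h1 : ((Pool.Agent.TH339.MP.av W v : ℝ) : ℂ) = ((trace W v : ℤ) : ℂ) := by
      rw [htr, ← Pool.Agent.N881.GW.av'_eq]
      push_cast
      rfl
    have h2 : (if (W v).Δ ∈ v.asIdeal then 0 else (Pool.Agent.TH339.MP.nm v : ℂ)) =
        ((det W v : ℤ) : ℂ) := by
      unfold det
      split_ifs
      · simp
      · rw [Int.cast_natCast]
        rfl
    rw [h1, h2]
    rfl
  have hpart : ∀ s, partialLSeries W S s = Pool.Agent.N881.GW.LSp W S s := by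
    intro s
    unfold partialLSeries Pool.Agent.N881.GW.LSp
    exact tprod_congr fun v => by rw [hlf]
  have hfull : ∀ s, LSeries W s = ∏' v, Pool.Agent.TH339.MP.elf W v s := by
    intro s
    unfold LSeries
    exact tprod_congr fun v => hlf v s
  have havg : ∀ A x τ, average W S A x τ = Pool.Agent.N881.GW.avg W S A x τ := by
    intro A x τ
    unfold average Pool.Agent.N881.GW.avg
    congr 1
    refine tsum_congr fun p => ?_
    split_ifs
    · rfl
    · unfold Pool.Agent.N881.GW.term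
      rw [hps]
      rfl
  have hEF : ∀ m A, ExplicitFormula W S m A ↔ Pool.Agent.N881.GW.EF W S m A := by
    intro m A
    unfold ExplicitFormula Pool.Agent.N881.GW.EF
    refine forall_congr' fun T => exists_congr fun C => forall_congr' fun τ =>
      forall_congr' fun x => ?_
    rw [havg]
    rfl
  have hlf2 : ∀ (m : ℂ → ℤ) (b R : ℝ),
      {ρ : ℂ | m ρ ≠ 0 ∧ 3 / 2 - b < ρ.re ∧ |ρ.im| < R} ⊆
        {ρ : ℂ | m ρ ≠ 0 ∧ 3 / 2 - b < ρ.re ∧ |ρ.im| ≤ R} := by
    rintro m b R ρ ⟨h1, h2, h3⟩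
    exact ⟨h1, h2, h3.le⟩
  have hlf3 : ∀ (m : ℂ → ℤ) (b R : ℝ),
      {ρ : ℂ | m ρ ≠ 0 ∧ 3 / 2 - b < ρ.re ∧ |ρ.im| ≤ R} ⊆
        {ρ : ℂ | m ρ ≠ 0 ∧ 3 / 2 - max b 1 < ρ.re ∧ |ρ.im| < R + 1} := by
    rintro m b R ρ ⟨h1, h2, h3⟩
    refine ⟨h1, ?_, by linarith⟩
    have := le_max_left b 1
    linarith
  refine ⟨fun δ hδ m hm => ?_, fun m hm => ?_, ?_⟩
  · have key := Pool.Agent.N881.GW.ec_crit W hS (B := Set.Ioo 0 δ) (fun b hb => hb.1) hm.1
      (fun A _ hA R => by
        obtain ⟨b, hb, hAb⟩ := hA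
        exact (hm.2 A R (hAb.trans hb.2)).subset (hlf2 m A R))
    have e1 : (∀ A : ℝ, 0 < A → (∃ b ∈ Set.Ioo 0 δ, 2 * A < b) →
        Pool.Agent.N881.GW.EF W S m A) ↔
        ∀ A : ℝ, 0 < A → 2 * A < δ → ExplicitFormula W S m A := by
      refine forall_congr' fun A => forall_congr' fun hA => ?_
      rw [hEF]
      refine imp_congr_left ⟨?_, fun h => ?_⟩
      · rintro ⟨b, hb, hAb⟩
        exact hAb.trans hb.2
      · exact ⟨(2 * A + δ) / 2, ⟨by linarith, by linarith⟩, by linarith⟩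
    rw [← e1, ← key]
    unfold ContinuesTo
    refine exists_congr fun F => and_congr ?_ ?_
    · refine forall_congr' fun s => forall_congr' fun hs => ?_
      rw [hpart]
    · refine forall_congr' fun s => imp_congr_left ⟨fun h => ?_, ?_⟩
      · refine ⟨max ((δ + (3 / 2 - s.re)) / 2) (δ / 2), ⟨lt_of_lt_of_le (by positivity)
          (le_max_right _ _), max_lt (by linarith) (by linarith)⟩, ?_⟩
        have := le_max_left ((δ + (3 / 2 - s.re)) / 2) (δ / 2)
        linarith
      · rintro ⟨b, hb, hz⟩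
        have := hb.2
        linarith
  · have key := Pool.Agent.N881.GW.ec_crit W hS (B := Set.Ioi 0) (fun b hb => hb) (hm 1).1
      (fun A _ _ R => ((hm (A + 1)).2 A R (by linarith)).subset (hlf2 m A R))
    have e1 : (∀ A : ℝ, 0 < A → (∃ b ∈ Set.Ioi (0 : ℝ), 2 * A < b) →
        Pool.Agent.N881.GW.EF W S m A) ↔ ∀ A : ℝ, 0 < A → ExplicitFormula W S m A := by
      refine forall_congr' fun A => forall_congr' fun hA => ?_
      rw [hEF]
      refine ⟨fun h => h ⟨2 * A + 1, ?_, by linarith⟩, fun h _ => h⟩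
      show (0 : ℝ) < 2 * A + 1
      linarith
    rw [← e1, ← key]
    refine exists_congr fun F => and_congr ?_ ?_
    · refine forall_congr' fun s => forall_congr' fun hs => ?_
      rw [hpart]
    · refine forall_congr' fun s => ⟨fun h _ => h, fun h => h ⟨|3 / 2 - s.re| + 1, ?_, ?_⟩⟩
      · show (0 : ℝ) < |3 / 2 - s.re| + 1
        positivity
      · have := le_abs_self (3 / 2 - s.re)
        linarith
  · have hall : ∀ s : ℂ, ∃ b ∈ Set.Ioi (0 : ℝ), 3 / 2 - b < s.re := by
      intro s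
      refine ⟨|3 / 2 - s.re| + 1, ?_, ?_⟩
      · show (0 : ℝ) < |3 / 2 - s.re| + 1
        positivity
      · have := le_abs_self (3 / 2 - s.re)
        linarith
    have h1 := (Pool.Agent.N881.GW.full_iff W S (Set.Ioi 0)).trans
      (Pool.Agent.N881.GW.ec_exists W hS (B := Set.Ioi 0) (fun b hb => hb))
    constructor
    · rintro ⟨F, h2, h3⟩
      obtain ⟨m, k1, k2, k3⟩ := h1.1 ⟨F, fun s hs => by rw [h2 s hs, hfull], fun s _ => h3 s⟩
      refine ⟨m, fun δ => ⟨k1, fun b R _ => ?_⟩, fun A hA => ?_⟩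
      · refine (k2 (max b 1) (by positivity) ⟨max b 1 + 1, ?_, by linarith⟩ (R + 1)).subset
          (hlf3 m b R)
        show (0 : ℝ) < max b 1 + 1
        positivity
      · rw [hEF]
        refine k3 A hA ⟨2 * A + 1, ?_, by linarith⟩
        show (0 : ℝ) < 2 * A + 1
        linarith
    · rintro ⟨m, k1, k2⟩
      obtain ⟨F, h2, h3⟩ := h1.2 ⟨m, (k1 1).1, fun A _ _ R =>
        ((k1 (A + 1)).2 A R (by linarith)).subset (hlf2 m A R),
        fun A hA _ => (hEF m A).1 (k2 A hA)⟩
      exact ⟨F, fun s hs => by rw [h2 s hs, hfull], fun s => h3 s (hall s)⟩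

end Pool.Agent.Results.MP_0d9be2_nt.ConverseExplicitFormula
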