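import Pool.Agent.N903.EV.Defs
import Pool.Agent.N903.EV.Final

/-!
# The joint limit law of elliptic curves over number fields on the edge of absolute convergence

`E_j`, `j = 1, …, n`, are elliptic curves over arbitrary number fields `K_j`, and `h_j` are real
numbers.  For most number fields a continuation of `L(E_j, s)` across any point of the edge
`Re s = 3/2` of the half-plane of absolute convergence is not known.  The theorem gives, without any
hypothesis, the statistics of the boundary values `λ_j(τ)` of `log L(E_j, s)` at `3/2 + i(τ + h_j)`: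
they exist outside a set of Hausdorff dimension `0`, and they have a joint limit law on `ℂⁿ`, the
same in all windows `(A, A + T]`, uniformly in `A`.  If the curves and shifts are independent, the
law has a `C^∞` density.  This is always so for one curve and `n` distinct shifts.

The definitions `IsGood`, `logL`, `primeCoeff`, `edgePoint`, `angle`, `comb` are in
`Pool.Agent.N903.ED.Defs`, and `Independent` is in `Pool.Agent.N903.EV.Defs`.
-/

set_option autoImplicit false

namespace Pool.Agent.Results.MP_0d9be2_nt.EdgeLaw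

open NumberField IsDedekindDomain Filter Topology MeasureTheory Pool.Agent.N903.ED
  Pool.Agent.N903.EV
open scoped ContDiff BoundedContinuousFunction

/-- **The law on the edge.**

1. Let `E_1, …, E_n` be elliptic curves over number fields `K_1, …, K_n`, `V_j` a set of primes of
   `K_j` of good reduction not dividing `6`, and `h_j` real.  There is a set `N` of real numbers of
   Hausdorff dimension `0` such that for `τ ∉ N` the function `log L_{V_j}(E_j, s)` has a limit
   `λ_j(τ)` at `3/2 + i(τ + h_j)` in every angle in the half-plane `Re s > 3/2`.  There is a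
   probability measure `ν` on `ℂⁿ` such that for every bounded continuous `F` the mean value of
   `F(λ_1(τ), …, λ_n(τ))` over the window `(A, A + T]` tends to `∫ F dν` as `T → ∞`, uniformly in
   `A`.  If the curves and shifts are independent, `ν` has a `C^∞` density.
2. One curve `E` with a set `V` that contains all but finitely many primes is independent of its
   translates: `E, …, E` and `n` distinct shifts are independent, so that the vector of the boundary
   values of `log L_V(E, s)` at `3/2 + i(τ + h_1), …, 3/2 + i(τ + h_n)` has a limit law with a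
   `C^∞` density.
3. `E_1, …, E_n` and `h_1, …, h_n` are independent if for every `u ≠ 0` in `ℂⁿ` the sum
   `∑_j u_j A_j(p) p^{-i h_j}` is different from `0` for infinitely many prime numbers `p`. -/
theorem result :
    (∀ {n : ℕ} (K : Fin n → Type) [∀ j, Field (K j)] [∀ j, NumberField (K j)]
      (W : ∀ j, WeierstrassCurve (𝓞 (K j))) (V : ∀ j, Set (HeightOneSpectrum (𝓞 (K j))))
      (_ : ∀ j, ∀ v ∈ V j, IsGood (W j) v) (h : Fin n → ℝ),
      ∃ N : Set ℝ, dimH N = 0 ∧ ∃ lam : ℝ → EuclideanSpace ℂ (Fin n),
        (∀ τ, τ ∉ N → ∀ j, ∀ C : ℝ, Tendsto (logL (W j) (V j))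
          (𝓝[angle (τ + h j) C] (edgePoint (τ + h j))) (𝓝 (lam τ j))) ∧
        AEMeasurable lam ∧
        ∃ ν : Measure (EuclideanSpace ℂ (Fin n)), IsProbabilityMeasure ν ∧
          (∀ F : EuclideanSpace ℂ (Fin n) →ᵇ ℝ, ∀ ε : ℝ, 0 < ε → ∃ T₀ : ℝ, ∀ T ≥ T₀, ∀ A : ℝ,
            |T⁻¹ * (∫ τ in A..(A + T), F (lam τ)) - ∫ w, F w ∂ν| ≤ ε) ∧
          (Independent W V h → ∃ g : EuclideanSpace ℂ (Fin n) → ℝ, ContDiff ℝ ∞ g ∧
            (∀ w, 0 ≤ g w) ∧ ν = volume.withDensity fun w => ENNReal.ofReal (g w))) ∧
    (∀ {n : ℕ} (K : Type) [Field K] [NumberField K] (W : WeierstrassCurve (𝓞 K))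
      (V : Set (HeightOneSpectrum (𝓞 K))) (_ : ∀ v ∈ V, IsGood W v) (_ : Vᶜ.Finite)
      (h : Fin n → ℝ), Function.Injective h →
        Independent (K := fun _ => K) (fun _ => W) (fun _ => V) h) ∧
    (∀ {n : ℕ} (K : Fin n → Type) [∀ j, Field (K j)] [∀ j, NumberField (K j)]
      (W : ∀ j, WeierstrassCurve (𝓞 (K j))) (V : ∀ j, Set (HeightOneSpectrum (𝓞 (K j))))
      (_ : ∀ j, ∀ v ∈ V j, IsGood (W j) v) (h : Fin n → ℝ),
      (∀ u : Fin n → ℂ, u ≠ 0 → ∀ x : ℕ, ∃ p : ℕ, x ≤ p ∧ p.Prime ∧
        ∑ j, u j * primeCoeff (W j) (V j) p * (p : ℂ) ^ (-(h j * Complex.I)) ≠ 0) →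
      Independent W V h) :=
  ⟨fun _ _ _ W V hV h => joint W V h hV,
    fun _ _ _ W V hV hcof h hinj => independent_same W V hV hcof h hinj,
    fun _ _ _ W V hV h hc => independent_of_coeff W V h hV hc⟩

end Pool.Agent.Results.MP_0d9be2_nt.EdgeLaw
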