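import Pool.Agent.N683.H2.Res

/-!
# Meromorphic continuation of the L-series of elliptic curves: equivalence with the case of large rank

`K` is a number field, `E` an elliptic curve over `K` with `j(E) ≠ 0, 1728`, `L` a finite Galois
extension of `K`, for example `L = K(E[N])`, `S` a finite set of primes of `K`, for example the primes of
bad reduction, and `R` a natural number.  `L(E/K, s)` itself is, up to a meromorphic function on `ℂ`
without zeros and poles on `Re s > 3/2` and at `s = 1`, a product of integral powers of functions
`L(E/F_i, s)` for finite extensions `F_i` of `K` over which `E` has rank at least `R`, with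
hyperelementary Galois groups of `L F_i / F_i`.  So the meromorphic continuation of the `L`-series of all
elliptic curves over number fields is equivalent to the continuation for the curves of rank at least `R`
and those with `j = 0, 1728` (for which it is known).

The proof.  Let `U` be a group of automorphisms of the algebraic closure over `K` such that all finite
images of `U` have a cyclic normal subgroup whose order is prime to `p` and whose index is a power of `p`.
Then `E` has infinite rank over the fixed field `F` of `U`; by compactness the rank is at least `R` over
the fixed fields of all `p`-hyperelementary subgroups of the Galois group of a suitable finite extension,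
and Brauer induction gives the relation, with coefficient `1` since all `p` occur.

For odd `p` see `Pool.Agent.N683.HR`.  For `p = 2`: the three points of `E : y² = f(x)` on a line
`y = t x + n` over `F` are permuted by `U`; if none is fixed the image in the symmetric group is
transitive, and then the field of the square root of the discriminant `D(t, n)` of `f(x) - (t x + n)²` is
unique, since the 2-group `U/C` acts on a cyclic normal group `C` of odd order.  On a rational curve
`n = N(t)/W(t)`, constructed over a field with a fixed abscissa of a 3-torsion point or with a fixed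
factorisation `(x² + p x + q)(x² - p x + q')` of the 3-division polynomial, `D` is `α t² + β` up to
squares, and the values of this form lie in two different classes modulo squares, or `F` is
pythagorean; so on one of two explicit families every line contains a point of `E(F)`.  The parameter of
the line is chosen `𝔭`-adically near a pole of `n`, so that no multiple of the new point is defined over a
given finite extension (formal group).  If `U` fixes `p` only up to sign, the trace of the point from the
quadratic extension `F(p)` is used.  If `F` is pythagorean, `1 + t²` is always a square, and points are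
found directly; the theorem of Diller and Dress descends this property from `F(p)` to `F`.
-/

set_option autoImplicit false

namespace Pool.Agent.Results.MP_0d9be2_nt.HighRankEquivalence

open NumberField IsDedekindDomain
open Pool.Agent.R433.MD (Ext)
open Pool.Agent.N19.BR.Def
open scoped Classical

/-- The rank of the elliptic curve `E` over `K` over the extension `F = Z.F` of `K` is at least `R`. -/
def RankAtLeast {K : Type} [Field K] [NumberField K] (R : ℕ) (E : WeierstrassCurve K) (Z : Ext K) :
    Prop :=
  (R : Cardinal) ≤ Module.rank ℤ (E.map (algebraMap K Z.F)).toAffine.Point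

/-- The `L`-series of an elliptic curve over `F`, the product of the Euler factors of the minimal models
`V`. -/
noncomputable def LFunction {F : Type} [Field F] [NumberField F]
    (V : HeightOneSpectrum (𝓞 F) → WeierstrassCurve (𝓞 F)) (s : ℂ) : ℂ := ∏' v, factor V s v

/-- `L(E/K, s)` has a meromorphic continuation to `U`. -/
def Continuation (U : Set ℂ) (K : Type) [Field K] [NumberField K] (E : WeierstrassCurve K) : Prop :=
  ∃ Λ : ℂ → ℂ, Continues U 1 E Λ

/-- The first part of the theorem, for one curve. -/
def Reduction (K : Type) [Field K] [NumberField K] (E : WeierstrassCurve K) (L : Type) [Field L]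
    [Algebra K L] (S : Set (HeightOneSpectrum (𝓞 K))) (n R : ℕ) : Prop :=
  ∃ (k : ℕ) (F : Fin k → Ext K) (e : Fin k → ℤ),
    (∀ i, RankAtLeast R E (F i) ∧ HyperelementaryClass L S n (F i)) ∧
    (∀ (V : HeightOneSpectrum (𝓞 K) → WeierstrassCurve (𝓞 K)) (_ : MinimalModels E V)
      (W : ∀ i, HeightOneSpectrum (𝓞 (F i).F) → WeierstrassCurve (𝓞 (F i).F))
      (_ : ∀ i, MinimalModels (E.map (algebraMap K (F i).F)) (W i)),
      ∃ ρ : ℂ → ℂ, MeromorphicOn ρ Set.univ ∧ meromorphicOrderAt ρ 1 = 0 ∧
        ∀ s : ℂ, 3 / 2 < s.re → ρ s ≠ 0 ∧
          LFunction V s = ρ s * ∏ i, LFunction (W i) s ^ e i) ∧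
    ∀ U : Set ℂ, (∀ i, Continuation U (F i).F (E.map (algebraMap K (F i).F))) →
      Continuation U K E

/-- **Meromorphic continuation and elliptic curves of large rank.**

(1) Let `E` be an elliptic curve over a number field `K` with `j(E) ≠ 0, 1728`, `L/K` a finite Galois
extension, `S` a finite set of primes of `K`, `n ≥ 1` and `R` a natural number.  There are finitely many
finite extensions `F_i` of `K` and integers `e_i` such that
* `E(F_i)` has rank at least `R`;
* for a prime number `p_i` the Galois group of `L F_i / F_i` is `p_i`-hyperelementary, and the part
  of `n` prime to `p_i` divides the local degrees of `F_i / K` above `S`; `F_i` has at most two real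
  places if `p_i ≠ 2`;
* `L(E/K, s) = ρ(s) ∏ L(E/F_i, s) ^ e_i` for `Re s > 3/2`, where `ρ` is meromorphic on `ℂ`,
  different from zero for `Re s > 3/2` and of order `0` at `s = 1`;
* for all sets `U`, for example `U = ℂ`: if all `L(E/F_i, s)` have a meromorphic continuation to `U`, then
  `L(E/K, s)` has a meromorphic continuation to `U`.

(2) For every natural number `R` and every set `U`, for example `U = ℂ`: the `L`-series of all elliptic
curves over all number fields have meromorphic continuations to `U` if and only if those of the elliptic
curves of rank at least `R` and of the elliptic curves with `j = 0` or `j = 1728` have meromorphic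
continuations to `U`. -/
theorem result :
    (∀ (K : Type) [Field K] [NumberField K] (E : WeierstrassCurve K) [E.IsElliptic],
      E.j ≠ 0 → E.j ≠ 1728 → ∀ (L : Type) [Field L] [NumberField L] [Algebra K L]
      [IsGalois K L] (S : Set (HeightOneSpectrum (𝓞 K))), S.Finite → ∀ n : ℕ, n ≠ 0 →
      ∀ R : ℕ, Reduction K E L S n R) ∧
    ∀ (R : ℕ) (U : Set ℂ),
      (∀ (K : Type) [Field K] [NumberField K] (E : WeierstrassCurve K) [E.IsElliptic],
        Continuation U K E) ↔
      ∀ (K : Type) [Field K] [NumberField K] (E : WeierstrassCurve K) [E.IsElliptic],
        ((R : Cardinal) ≤ Module.rank ℤ E.toAffine.Point ∨ E.j = 0 ∨ E.j = 1728) →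
        Continuation U K E := by
  have main : ∀ (K : Type) [Field K] [NumberField K] (E : WeierstrassCurve K) [E.IsElliptic],
      E.j ≠ 0 → E.j ≠ 1728 → ∀ (L : Type) [Field L] [NumberField L] [Algebra K L]
      [IsGalois K L] (S : Set (HeightOneSpectrum (𝓞 K))), S.Finite → ∀ n : ℕ, n ≠ 0 →
      ∀ R : ℕ, Reduction K E L S n R := by
    intro K _ _ E hE h0 h1728 L _ _ _ _ S hS n hn R
    obtain ⟨k, F, e, hrel, hF⟩ := Pool.Agent.N683.H2.list_one K E hE h0 h1728 L S hS n hn R
    exact ⟨k, F, e, hF, fun V hV W hW => Pool.Agent.N683.H2.L_of_rel1 hrel hE V hV W hW,
      fun U h => Pool.Agent.N683.HR.cont_of_rel hrel hE h⟩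
  refine ⟨main, fun R U => ⟨fun h K _ _ E _ _ => h K E, fun h K _ _ E _ => ?_⟩⟩
  by_cases h0 : E.j = 0
  · exact h K E (Or.inr (Or.inl h0))
  by_cases h1 : E.j = 1728
  · exact h K E (Or.inr (Or.inr h1))
  obtain ⟨k, F, e, hF, -, hU⟩ := main K E h0 h1 K ∅ Set.finite_empty 1 one_ne_zero R
  exact hU U fun i => h (F i).F _ (Or.inl (hF i).1)

end Pool.Agent.Results.MP_0d9be2_nt.HighRankEquivalence
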