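import Mathlib
import Pool.Agent.N534.EC.State

/-!
# All quadratic twists of an elliptic curve over a number field: the limit law on the edge `Re s = 3/2`

`K` is an arbitrary number field with an integral basis `ω_i`, `i ∈ I`, and `E : y² = x³ + a x + b`, `a, b ∈ 𝓞 K`, is any elliptic
curve over `K`. For an integer vector `c` let `d(c) = ∑ c_i ω_i`, and let

`E_d : y² = x³ + a d² x + b d³`

be the twist of `E` by the quadratic character of `K(√d)/K`. The theorem is about all `d(c)` with coordinates
`|c_i| ≤ H`. The `L`-functions are taken without the Euler factors at the primes dividing `6 d (4 a³ + 27 b²)`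
(among these are all the primes of bad reduction of `E_d`).

The continuation of `L(E_d, s)`, meromorphic or not, is not known for a general field `K`, not even to a neighbourhood of a single point of
the line `Re s = 3/2`. The theorem determines the distribution of the values near this line, and to the right of it: for finitely many
points `s_k` with `Re s_k ≥ 3/2` and for any points `σ_k(H) → s_k` with `(Re σ_k(H) - 3/2) log H → ∞`, the joint
distribution of the numbers `L(E_d, σ_k(H))`, for random `d`, converges to the joint distribution of the values `exp (Z_k)` of the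
random Euler product at the points `s_k`, where the residue classes of `c` modulo the rational primes are independent
and uniform. `Z_k` is the limit in the mean of the sums over `p ≤ z` of the logarithms of the Euler factors above `p` at the point `s_k`,
which may be on the line itself. Nothing is assumed about `E`.

For the twists of one fixed automorphic form results of this kind go back to Chowla and Erdős and to Elliott (`L(1, χ_d)`), where
the continuation of every single function is known; here it is not.
-/

set_option autoImplicit false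

open NumberField IsDedekindDomain MeasureTheory Filter Topology

namespace Pool.Agent.Results.MP_0d9be2_nt.QuadraticTwistsLimitLaw

section
variable {K : Type} [Field K] [NumberField K]

/-- `6 (4 a³ + 27 b²)`. -/
noncomputable def disc (a b : 𝓞 K) : 𝓞 K := 6 * (4 * a ^ 3 + 27 * b ^ 2)

open Classical in
/-- The Euler factor of `y² = x³ + a x + b` at a prime `v`, with `T = q_v^{-s}`: it is `1 - a_v T + q_v T²`, where `a_v` is `q_v` minus
the number of the affine points of the reduction, and `1` if `v` divides `6 (4 a³ + 27 b²)`. -/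
noncomputable def factor (a b : 𝓞 K) (s : ℂ) (v : HeightOneSpectrum (𝓞 K)) : ℂ :=
  if disc a b ∈ v.asIdeal then 1 else
    1 - ((((Ideal.absNorm v.asIdeal : ℕ) : ℤ) -
          ((Nat.card {p : (𝓞 K ⧸ v.asIdeal) × (𝓞 K ⧸ v.asIdeal) //
            p.2 ^ 2 = p.1 ^ 3 + Ideal.Quotient.mk v.asIdeal a * p.1 + Ideal.Quotient.mk v.asIdeal b} : ℕ) : ℤ) : ℤ) : ℂ)
          * ((Ideal.absNorm v.asIdeal : ℕ) : ℂ) ^ (-s)
      + ((Ideal.absNorm v.asIdeal : ℕ) : ℂ) ^ (1 - 2 * s)

/-- The `L`-function of `y² = x³ + a x + b` without the Euler factors at the primes dividing `6 (4 a³ + 27 b²)`. -/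
noncomputable def LSeries (a b : 𝓞 K) (s : ℂ) : ℂ :=
  ∏' v : HeightOneSpectrum (𝓞 K), (factor a b s v)⁻¹

/-- Vectors of residue classes, one for each rational prime. -/
abbrev Residues (ι : Type) : Type := ∀ p : Nat.Primes, ι → ZMod (p : ℕ)

/-- The residue classes are independent and uniform. -/
noncomputable def uniform (ι : Type) [Fintype ι] [DecidableEq ι] : Measure (Residues ι) :=
  Measure.infinitePi fun p => (PMF.uniformOfFintype (ι → ZMod (p : ℕ))).toMeasure

/-- An integer vector in the residue class modulo `p`. -/
def lift {ι : Type} (x : Residues ι) (p : Nat.Primes) : ι → ℤ := fun i => ((x p i).val : ℤ)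

/-- The integer vectors with coordinates of absolute value at most `H`. -/
noncomputable def box (ι : Type) [Fintype ι] [DecidableEq ι] (H : ℕ) : Finset (ι → ℤ) :=
  Fintype.piFinset fun _ => Finset.Icc (-(H : ℤ)) H

/-- The prime numbers up to `z`. -/
def primesUpTo (z : ℕ) : Finset Nat.Primes := (Finset.range (z + 1)).subtype Nat.Prime

/-- The logarithm of the random Euler product over the primes above the rational primes `p ≤ z`: the Euler factors above `p` are those
of the curve given by the residue classes modulo `p`. -/
noncomputable def randomLog {ι : Type} (a b : (ι → ℤ) → 𝓞 K) (z : ℕ) (s : ℂ) (x : Residues ι) : ℂ :=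
  ∑ p ∈ primesUpTo z,
    ∑ᶠ v : {v : HeightOneSpectrum (𝓞 K) // ((p : ℕ) : 𝓞 K) ∈ v.asIdeal},
      -Complex.log (factor (a (lift x p)) (b (lift x p)) s v.1)

variable {I : Type} [Fintype I] [DecidableEq I]

/-- `d(c) = ∑ c_i ω_i`. -/
noncomputable def d (ω : Module.Basis I ℤ (𝓞 K)) (c : I → ℤ) : 𝓞 K := ∑ i, ((c i : ℤ) : 𝓞 K) * ω i

/-- **The limit law of the `L`-functions of all quadratic twists of an elliptic curve over a number field, up to the line
`Re s = 3/2`.** -/
theorem result (ω : Module.Basis I ℤ (𝓞 K)) (a b : 𝓞 K) (hE : 4 * a ^ 3 + 27 * b ^ 2 ≠ 0)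
    {κ : Type} [Fintype κ] (s : κ → ℂ) (hs : ∀ k, 3 / 2 ≤ (s k).re) :
    ∃ Z : κ → Residues I → ℂ,
      (∀ k, Measurable (Z k)) ∧ (∀ k, Integrable (Z k) (uniform I)) ∧
      (∀ k, Tendsto (fun z : ℕ => ∫ x, ‖randomLog (fun c => a * d ω c ^ 2) (fun c => b * d ω c ^ 3) z (s k) x -
        Z k x‖ ∂(uniform I)) atTop (𝓝 0)) ∧
      ∀ σ : ℕ → κ → ℂ, (∀ k, Tendsto (fun H => σ H k) atTop (𝓝 (s k))) →
        (∀ k, Tendsto (fun H : ℕ => ((σ H k).re - 3 / 2) * Real.log H) atTop atTop) →
        (∀ F : (κ → ℂ) → ℝ, Continuous F → (∃ C : ℝ, ∀ y, |F y| ≤ C) →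
          Tendsto (fun H : ℕ => (∑ c ∈ box I H,
            F (fun k => LSeries (a * d ω c ^ 2) (b * d ω c ^ 3) (σ H k))) / (box I H).card)
            atTop (𝓝 (∫ x, F (fun k => Complex.exp (Z k x)) ∂(uniform I)))) ∧
        (∀ E : Set (κ → ℂ), MeasurableSet E →
          uniform I {x | (fun k => Complex.exp (Z k x)) ∈ frontier E} = 0 →
          Tendsto (fun H : ℕ => (open Classical in ((box I H).filter
            (fun c => (fun k => LSeries (a * d ω c ^ 2) (b * d ω c ^ 3) (σ H k)) ∈ E)).card : ℝ) /
              (box I H).card) atTop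
            (𝓝 ((uniform I).real {x | (fun k => Complex.exp (Z k x)) ∈ E}))) :=
  Pool.Agent.N534.EC.State.state (Pool.Agent.N534.EC.sys_twist ω a b hE) s hs

end

end Pool.Agent.Results.MP_0d9be2_nt.QuadraticTwistsLimitLaw
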